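import Pool.Agent.H7.GF.Targets1
import Pool.Agent.H7.GF.Targets2
import Pool.Agent.H7.GF.Targets3
import Pool.Agent.H7.GF.Basic

/-!
Module G6B: small fields of degree 6, large radical.
-/

set_option autoImplicit false
set_option linter.style.haveILetI false

namespace Pool.Agent.H57.GF

open Pool.Agent.H7.GF Polynomial NumberField Module

lemma sqfree_dvd {C N : ℕ} (hC : Squarefree C) (h : ∀ p, p.Prime → p ∣ C → p ∣ N) : C ∣ N := by
  rw [← Nat.prod_primeFactors_of_squarefree hC]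
  apply Finset.prod_primes_dvd
  · intro p hp
    exact (Nat.prime_of_mem_primeFactors hp).prime
  · intro p hp
    exact h p (Nat.prime_of_mem_primeFactors hp) (Nat.dvd_of_mem_primeFactors hp)

lemma card_sqfree (N : ℕ) (hN : N ≠ 0) (s : Finset ℕ) (hs : ∀ C ∈ s, Squarefree C ∧ C ∣ N) :
    s.card ≤ 2 ^ om N := by
  unfold om
  rw [← Finset.card_powerset]
  apply Finset.card_le_card_of_injOn (fun C => C.primeFactors)
  · intro C hC
    rw [Finset.mem_coe, Finset.mem_powerset]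
    exact Nat.primeFactors_mono (hs C hC).2 hN
  · intro C hC C' hC' h
    have h1 := Nat.prod_primeFactors_of_squarefree (hs C hC).1
    have h2 := Nat.prod_primeFactors_of_squarefree (hs C' hC').1
    rw [← h1, ← h2]
    simp only at h
    rw [h]

/-- zeros of `DD` in a box -/
lemma card_zeros {m : ℕ} (S : Fin (m + 1) → ℕ) (DD : (Fin (m + 1) → ℤ) → ℤ) (K : ℕ)
    (h : ∀ a : Fin (m + 1) → ℤ, {t : ℤ | DD (Function.update a 0 t) = 0}.Finite ∧
      {t : ℤ | DD (Function.update a 0 t) = 0}.ncard ≤ K) :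
    ((Fintype.piFinset fun i => Finset.Icc (-(S i : ℤ)) (S i)).filter (fun a => DD a = 0)).card ≤
      K * ∏ i : Fin m, (2 * S i.succ + 1) := by
  classical
  set A := (Fintype.piFinset fun i => Finset.Icc (-(S i : ℤ)) (S i)).filter (fun a => DD a = 0) with hA
  have h1 : A.card ≤ K * (A.image Fin.tail).card := by
    apply Finset.card_le_mul_card_image
    intro b hb
    obtain ⟨a', ha', hb'⟩ := Finset.mem_image.1 hb
    have h2 : ((A.filter (fun a => Fin.tail a = b)).image (fun a => a 0)).card ≤ K := by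
      refine le_trans ?_ (h a').2
      rw [← Set.ncard_coe_finset]
      apply Set.ncard_le_ncard _ (h a').1
      intro t ht
      rw [Finset.mem_coe, Finset.mem_image] at ht
      obtain ⟨a, ha, rfl⟩ := ht
      rw [Finset.mem_filter] at ha
      have h3 : Function.update a' 0 (a 0) = a := by
        funext i
        refine Fin.cases ?_ ?_ i
        · simp
        · intro j
          rw [Function.update_of_ne (Fin.succ_ne_zero j)]
          have := congrFun (hb'.trans ha.2.symm) j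
          exact this
      rw [Set.mem_ofPred_eq, h3]
      exact (Finset.mem_filter.1 ha.1).2
    rwa [Finset.card_image_of_injOn] at h2
    intro a ha a1 ha1 h0
    rw [Finset.mem_coe, Finset.mem_filter] at ha ha1
    funext i
    refine Fin.cases h0 ?_ i
    intro j
    exact congrFun (ha.2.trans ha1.2.symm) j
  refine h1.trans (Nat.mul_le_mul_left K ?_)
  have h3 : A.image Fin.tail ⊆ Fintype.piFinset fun i : Fin m =>
      Finset.Icc (-(S i.succ : ℤ)) (S i.succ) := by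
    intro b hb
    obtain ⟨a, ha, rfl⟩ := Finset.mem_image.1 hb
    rw [hA, Finset.mem_filter, Fintype.mem_piFinset] at ha
    rw [Fintype.mem_piFinset]
    intro i
    exact ha.1 i.succ
  refine (Finset.card_le_card h3).trans (le_of_eq ?_)
  rw [Fintype.card_piFinset]
  apply Finset.prod_congr rfl
  intro i _
  rw [Int.card_Icc]
  omega

lemma floor_bound {c X e : ℝ} (hc : 0 < c) (hX : 1 ≤ X) (he : 0 ≤ e) :
    (2 * (⌊c * X ^ e⌋₊ : ℝ) + 1) ≤ (2 * c + 1) * X ^ e := by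
  have h1 : (⌊c * X ^ e⌋₊ : ℝ) ≤ c * X ^ e := Nat.floor_le (by positivity)
  have h2 : 1 ≤ X ^ e := Real.one_le_rpow hX he
  nlinarith

theorem g6b (hDD : T_DD0) (hRTS : T_RTS) (hOMG : T_OMG) : T_G6B := by
  classical
  intro c hc
  obtain ⟨K, DD, Δ, hz, hsz, hne, hix1, hix2⟩ := hDD 5 (by norm_num)
  have hK1 : (1 : ℝ) ≤ (K : ℝ) + 1 := by
    have : (0 : ℝ) ≤ K := Nat.cast_nonneg K
    linarith
  obtain ⟨K₁, hK₁⟩ := hOMG 2 (by norm_num) (1 / (1000 * ((K : ℝ) + 1))) (by positivity)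
  obtain ⟨K₂, hK₂⟩ := hOMG ((K : ℝ) + 1) hK1 (1 / 500) (by norm_num)
  have hK₁0 : 1 ≤ K₁ := by
    have := hK₁ 1 le_rfl
    simpa [om] using this
  have hK₂0 : 1 ≤ K₂ := by
    have := hK₂ 1 le_rfl
    simpa [om] using this
  set ε : ℝ := 1 / (1000 * ((K : ℝ) + 1)) with hε
  have hε0 : 0 < ε := by positivity
  set M : ℝ := K₁ * (((K : ℝ) + 1) * (c + 7) ^ (K + 1)) ^ ε with hM
  have hM0 : 0 ≤ M := by positivity
  refine ⟨(2 * c + 1) * (K * (13 * (2 * c + 1) ^ 3)) + 13 * (2 * c + 1) ^ 4 * (M * (K₂ * (2 * c + 2))), ?_⟩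
  intro X hX
  have hX0 : 0 < X := by linarith
  -- sizes
  set S : ℕ := ⌊c * X ^ (3 / 5 : ℝ)⌋₊ with hS
  set s : Fin 5 → ℕ := ![⌊c * X ^ (1 / 2 : ℝ)⌋₊, ⌊c * X ^ (2 / 5 : ℝ)⌋₊, ⌊c * X ^ (3 / 10 : ℝ)⌋₊,
    ⌊c * X ^ (1 / 5 : ℝ)⌋₊, 6] with hs
  set A : Finset (Fin 5 → ℤ) := Fintype.piFinset fun i => Finset.Icc (-(s i : ℤ)) (s i) with hA
  set Q : (Fin 5 → ℤ) → ℤ → Prop := fun a t => ∃ C : ℕ, Squarefree C ∧ X ^ (1 / 5 : ℝ) < (C : ℝ) ∧
    (C : ℝ) ^ 2 ≤ X ∧ (∀ p, p.Prime → p ∣ C → 7 < p ∧ IX p 2 (pol t a)) with hQ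
  set Fa : (Fin 5 → ℤ) → Finset ℤ := fun a => (Finset.Icc (-(S : ℤ)) S).filter (Q a) with hFa
  set G := {g : ℤ[X] | g.Monic ∧ g.natDegree = 6 ∧ |(g.coeff 5 : ℝ)| ≤ 6 ∧
    (∀ j, 2 ≤ j → j ≤ 6 → |(g.coeff (6 - j) : ℝ)| ≤ c * X ^ ((j : ℝ) / 10)) ∧
    ∃ C : ℕ, Squarefree C ∧ X ^ (1 / 5 : ℝ) < (C : ℝ) ∧ (C : ℝ) ^ 2 ≤ X ∧
      (∀ p, p.Prime → p ∣ C → 7 < p ∧ IX p 2 g)} with hG
  have hfl : ∀ (z : ℤ) (B : ℝ), |(z : ℝ)| ≤ B → z ∈ Finset.Icc (-(⌊B⌋₊ : ℤ)) ⌊B⌋₊ := by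
    intro z B hz
    have h1 : (z.natAbs : ℝ) ≤ B := by rw [Nat.cast_natAbs]; exact_mod_cast hz
    have h2 : z.natAbs ≤ ⌊B⌋₊ := Nat.le_floor h1
    rw [Finset.mem_Icc]
    omega
  have hsub : G ⊆ ((A.biUnion (fun a => (Fa a).image (fun t => pol t a)) : Finset ℤ[X]) : Set ℤ[X]) := by
    rintro g ⟨g1, g2, g3, g4, C, g5⟩
    rw [Finset.mem_coe, Finset.mem_biUnion]
    have h0 := eq_pol (m := 5) g g1 g2
    refine ⟨fun i => g.coeff ((i : ℕ) + 1), ?_, ?_⟩
    · rw [hA, Fintype.mem_piFinset]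
      intro i
      fin_cases i
      · have := g4 5 (by norm_num) (by norm_num)
        norm_num at this
        exact hfl _ _ (by simpa using this)
      · have := g4 4 (by norm_num) (by norm_num)
        norm_num at this
        exact hfl _ _ (by simpa using this)
      · have := g4 3 (by norm_num) (by norm_num)
        norm_num at this
        exact hfl _ _ (by simpa using this)
      · have := g4 2 (by norm_num) (by norm_num)
        norm_num at this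
        exact hfl _ _ (by simpa using this)
      · have h6 : |g.coeff 5| ≤ 6 := by exact_mod_cast g3
        rw [abs_le] at h6
        rw [Finset.mem_Icc]
        exact h6
    · rw [Finset.mem_image]
      refine ⟨g.coeff 0, ?_, h0.symm⟩
      rw [hFa, Finset.mem_filter]
      refine ⟨?_, ⟨C, ?_⟩⟩
      · have := g4 6 (by norm_num) (by norm_num)
        norm_num at this
        exact hfl _ _ (by simpa using this)
      · rw [← h0]; exact g5
  have hcard : (G.ncard : ℝ) ≤ ∑ a ∈ A, ((Fa a).card : ℝ) := by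
    have h1 : G.ncard ≤ ∑ a ∈ A, (Fa a).card := by
      calc G.ncard ≤ (A.biUnion (fun a => (Fa a).image (fun t => pol t a))).card := by
            rw [← Set.ncard_coe_finset]
            exact Set.ncard_le_ncard hsub (Finset.finite_toSet _)
        _ ≤ ∑ a ∈ A, ((Fa a).image (fun t => pol t a)).card := Finset.card_biUnion_le
        _ ≤ ∑ a ∈ A, (Fa a).card := Finset.sum_le_sum fun a _ => Finset.card_image_le
    exact_mod_cast h1
  rw [← Finset.sum_filter_add_sum_filter_not A (fun a => DD a = 0)] at hcard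
  -- part A
  have hSb : (2 * (S : ℝ) + 1) ≤ (2 * c + 1) * X ^ (3 / 5 : ℝ) := floor_bound hc hX (by norm_num)
  have partA : ∑ a ∈ A.filter (fun a => DD a = 0), ((Fa a).card : ℝ) ≤
      (2 * c + 1) * (K * (13 * (2 * c + 1) ^ 3)) * X ^ (3 / 2 : ℝ) := by
    have h1 : ∀ a ∈ A.filter (fun a => DD a = 0), ((Fa a).card : ℝ) ≤ 2 * S + 1 := by
      intro a _
      have h2 : (Fa a).card ≤ 2 * S + 1 := by
        refine (Finset.card_filter_le _ _).trans ?_
        rw [Int.card_Icc]; omega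
      exact_mod_cast h2
    refine (Finset.sum_le_sum h1).trans ?_
    rw [Finset.sum_const, nsmul_eq_mul]
    have h3 : ((A.filter (fun a => DD a = 0)).card : ℝ) ≤ K * ∏ i : Fin 4, (2 * (s i.succ : ℝ) + 1) := by
      have := card_zeros s DD K (fun a => hz 0 rfl a)
      have h4 : (((A.filter (fun a => DD a = 0)).card : ℕ) : ℝ) ≤
        ((K * ∏ i : Fin 4, (2 * s i.succ + 1) : ℕ) : ℝ) := by exact_mod_cast this
      refine h4.trans (le_of_eq ?_)
      push_cast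
      rfl
    have h5 : ∏ i : Fin 4, (2 * (s i.succ : ℝ) + 1) ≤ 13 * (2 * c + 1) ^ 3 * X ^ (9 / 10 : ℝ) := by
      have e1 : (2 * (⌊c * X ^ (2 / 5 : ℝ)⌋₊ : ℝ) + 1) ≤ (2 * c + 1) * X ^ (2 / 5 : ℝ) :=
        floor_bound hc hX (by norm_num)
      have e2 : (2 * (⌊c * X ^ (3 / 10 : ℝ)⌋₊ : ℝ) + 1) ≤ (2 * c + 1) * X ^ (3 / 10 : ℝ) :=
        floor_bound hc hX (by norm_num)
      have e3 : (2 * (⌊c * X ^ (1 / 5 : ℝ)⌋₊ : ℝ) + 1) ≤ (2 * c + 1) * X ^ (1 / 5 : ℝ) :=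
        floor_bound hc hX (by norm_num)
      have e4 : X ^ (9 / 10 : ℝ) = X ^ (2 / 5 : ℝ) * X ^ (3 / 10 : ℝ) * X ^ (1 / 5 : ℝ) := by
        rw [← Real.rpow_add hX0, ← Real.rpow_add hX0]; norm_num
      rw [Fin.prod_univ_four]
      show (2 * (⌊c * X ^ (2 / 5 : ℝ)⌋₊ : ℝ) + 1) * (2 * (⌊c * X ^ (3 / 10 : ℝ)⌋₊ : ℝ) + 1) *
        (2 * (⌊c * X ^ (1 / 5 : ℝ)⌋₊ : ℝ) + 1) * (2 * ((6 : ℕ) : ℝ) + 1) ≤ _
      calc _ ≤ ((2 * c + 1) * X ^ (2 / 5 : ℝ)) * ((2 * c + 1) * X ^ (3 / 10 : ℝ)) *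
            ((2 * c + 1) * X ^ (1 / 5 : ℝ)) * (2 * ((6 : ℕ) : ℝ) + 1) := by gcongr
        _ = _ := by rw [e4]; push_cast; ring
    calc ((A.filter (fun a => DD a = 0)).card : ℝ) * (2 * S + 1)
        ≤ (K * (13 * (2 * c + 1) ^ 3 * X ^ (9 / 10 : ℝ))) * ((2 * c + 1) * X ^ (3 / 5 : ℝ)) := by
          gcongr
          exact h3.trans (by gcongr)
      _ = _ := by
          have e5 : X ^ (3 / 2 : ℝ) = X ^ (9 / 10 : ℝ) * X ^ (3 / 5 : ℝ) := by
            rw [← Real.rpow_add hX0]; norm_num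
          rw [e5]; ring
  -- part B
  set H : ℕ := ⌈(c + 6) * X⌉₊ with hH
  have hH1 : 1 ≤ H := by
    rw [hH, Nat.one_le_ceil_iff]; positivity
  have hHX : (H : ℝ) ≤ (c + 7) * X := by
    have : (H : ℝ) < (c + 6) * X + 1 := Nat.ceil_lt_add_one (by positivity)
    linarith
  have hAbox : ∀ a ∈ A, a ∈ box 5 H := by
    intro a ha
    rw [mem_box]
    rw [hA, Fintype.mem_piFinset] at ha
    intro i
    have h1 := ha i
    rw [Finset.mem_Icc] at h1
    have h2 : |a i| ≤ (s i : ℤ) := by rw [abs_le]; exact h1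
    have h3 : (s i : ℤ) ≤ H := by
      have h4 : (s i : ℝ) ≤ (c + 6) * X := by
        have key : ∀ e : ℝ, 0 ≤ e → e ≤ 1 → (⌊c * X ^ e⌋₊ : ℝ) ≤ (c + 6) * X := by
          intro e he0 he1
          have h5 : (⌊c * X ^ e⌋₊ : ℝ) ≤ c * X ^ e := Nat.floor_le (by positivity)
          have h6 : X ^ e ≤ X := by
            calc X ^ e ≤ X ^ (1 : ℝ) := Real.rpow_le_rpow_of_exponent_le hX he1
              _ = X := Real.rpow_one X
          nlinarith
        fin_cases i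
        · exact key _ (by norm_num) (by norm_num)
        · exact key _ (by norm_num) (by norm_num)
        · exact key _ (by norm_num) (by norm_num)
        · exact key _ (by norm_num) (by norm_num)
        · show ((6 : ℕ) : ℝ) ≤ _
          push_cast
          nlinarith
      have h7 : (s i : ℝ) ≤ H := h4.trans (Nat.le_ceil _)
      exact_mod_cast h7
    linarith
  have hFb : ∀ a ∈ A.filter (fun a => ¬ DD a = 0), ((Fa a).card : ℝ) ≤
      M * (K₂ * (2 * c + 2)) * X ^ (1 / 500 + 2 / 5 : ℝ) := by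
    intro a ha
    rw [Finset.mem_filter] at ha
    obtain ⟨haA, haD⟩ := ha
    set N : ℕ := (DD a).natAbs with hN
    have hN0 : N ≠ 0 := Int.natAbs_ne_zero.2 haD
    set D : Finset ℕ := N.divisors.filter (fun C => Squarefree C ∧ X ^ (1 / 5 : ℝ) < (C : ℝ) ∧
      (C : ℝ) ^ 2 ≤ X ∧ ∀ p, p.Prime → p ∣ C → 7 < p) with hD
    have hsub2 : Fa a ⊆ D.biUnion (fun C => (Finset.Icc (-(S : ℤ)) S).filter
        (fun t => ∀ p, p.Prime → p ∣ C → (p : ℤ) ∣ (Δ a).eval t)) := by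
      intro t ht
      rw [hFa, Finset.mem_filter] at ht
      obtain ⟨ht1, C, hC1, hC2, hC3, hC4⟩ := ht
      rw [Finset.mem_biUnion]
      refine ⟨C, ?_, ?_⟩
      · rw [hD, Finset.mem_filter, Nat.mem_divisors]
        refine ⟨⟨sqfree_dvd hC1 ?_, hN0⟩, hC1, hC2, hC3, fun p hp hpC => (hC4 p hp hpC).1⟩
        intro p hp hpC
        have h1 := hix2 p hp (by have := (hC4 p hp hpC).1; omega) t a (hC4 p hp hpC).2
        rw [hN]
        exact Int.natCast_dvd.1 h1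
      · rw [Finset.mem_filter]
        refine ⟨ht1, ?_⟩
        intro p hp hpC
        exact hix1 p hp (by have := (hC4 p hp hpC).1; omega) t a
          (IX_mono (by norm_num) (hC4 p hp hpC).2)
    have h2 : ((Fa a).card : ℝ) ≤ ∑ C ∈ D, (((Finset.Icc (-(S : ℤ)) S).filter
        (fun t => ∀ p, p.Prime → p ∣ C → (p : ℤ) ∣ (Δ a).eval t)).card : ℝ) := by
      have := (Finset.card_le_card hsub2).trans Finset.card_biUnion_le
      exact_mod_cast this
    have h3 : ∀ C ∈ D, (((Finset.Icc (-(S : ℤ)) S).filter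
        (fun t => ∀ p, p.Prime → p ∣ C → (p : ℤ) ∣ (Δ a).eval t)).card : ℝ) ≤
        K₂ * (2 * c + 2) * X ^ (1 / 1000 + 2 / 5 : ℝ) := by
      intro C hC
      rw [hD, Finset.mem_filter] at hC
      obtain ⟨-, hC1, hC2, hC3, hC4⟩ := hC
      have hC0 : (0 : ℝ) < C := lt_trans (by positivity) hC2
      have hC1' : 1 ≤ C := by
        have : 0 < C := by exact_mod_cast hC0
        omega
      have r1 : (((Finset.Icc (-(S : ℤ)) S).filter
        (fun t => ∀ p, p.Prime → p ∣ C → (p : ℤ) ∣ (Δ a).eval t)).card : ℝ) ≤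
          (K : ℝ) ^ (om C) * ((2 * (S : ℝ) + 1) / C + 1) := by
        have hdeg : (Δ a).natDegree ≤ K := by
          obtain ⟨q, hq1, hq2⟩ := Nat.exists_infinite_primes 100
          exact (hne q hq2 (by omega) a).2
        have := hRTS K C S (Δ a) hC1 hdeg (fun p hp hpC =>
          (hne p hp (by have := hC4 p hp hpC; omega) a).1)
        refine le_trans (le_of_eq ?_) this
        rw [← Set.ncard_coe_finset]
        congr 2
        ext t
        rw [Finset.mem_coe, Finset.mem_filter, Finset.mem_Icc, Set.mem_ofPred_eq, abs_le]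
      refine r1.trans ?_
      have r2 : (K : ℝ) ^ (om C) ≤ K₂ * X ^ (1 / 1000 : ℝ) := by
        calc (K : ℝ) ^ (om C) ≤ ((K : ℝ) + 1) ^ (om C) := by
              gcongr; linarith
          _ ≤ K₂ * (C : ℝ) ^ (1 / 500 : ℝ) := hK₂ C hC1'
          _ ≤ K₂ * X ^ (1 / 1000 : ℝ) := by
              gcongr
              calc (C : ℝ) ^ (1 / 500 : ℝ) = ((C : ℝ) ^ (2 : ℝ)) ^ (1 / 1000 : ℝ) := by
                    rw [← Real.rpow_mul hC0.le]; norm_num
                _ ≤ X ^ (1 / 1000 : ℝ) := by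
                    apply Real.rpow_le_rpow (by positivity) _ (by norm_num)
                    rw [Real.rpow_two]; exact hC3
      have r3 : (2 * (S : ℝ) + 1) / C + 1 ≤ (2 * c + 2) * X ^ (2 / 5 : ℝ) := by
        have r4 : (2 * (S : ℝ) + 1) / C ≤ (2 * c + 1) * X ^ (2 / 5 : ℝ) := by
          rw [div_le_iff₀ hC0]
          refine hSb.trans ?_
          have r5 : X ^ (3 / 5 : ℝ) = X ^ (2 / 5 : ℝ) * X ^ (1 / 5 : ℝ) := by
            rw [← Real.rpow_add hX0]; norm_num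
          rw [r5, ← mul_assoc]
          gcongr
        have r6 : 1 ≤ X ^ (2 / 5 : ℝ) := Real.one_le_rpow hX (by norm_num)
        linarith
      calc (K : ℝ) ^ (om C) * ((2 * (S : ℝ) + 1) / C + 1)
          ≤ (K₂ * X ^ (1 / 1000 : ℝ)) * ((2 * c + 2) * X ^ (2 / 5 : ℝ)) := by
            gcongr
        _ = _ := by rw [Real.rpow_add hX0]; ring
    have h4 : (D.card : ℝ) ≤ M * X ^ (1 / 1000 : ℝ) := by
      have d1 : D.card ≤ 2 ^ om N := by
        apply card_sqfree N hN0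
        intro C hC
        rw [hD, Finset.mem_filter, Nat.mem_divisors] at hC
        exact ⟨hC.2.1, hC.1.1⟩
      have d2 : (D.card : ℝ) ≤ 2 ^ om N := by exact_mod_cast d1
      have d3 : (N : ℝ) ≤ ((K : ℝ) + 1) * (c + 7) ^ (K + 1) * X ^ (K + 1) := by
        have d4 := hsz H hH1 a (hAbox a haA)
        have d5 : (N : ℝ) ≤ K * (H : ℝ) ^ K := by
          have : ((N : ℤ) : ℝ) ≤ ((K * H ^ K : ℤ) : ℝ) := by
            have d6 : (N : ℤ) ≤ (K : ℤ) * (H : ℤ) ^ K := by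
              rw [hN, Int.natCast_natAbs]; exact d4
            exact_mod_cast d6
          simpa using this
        have d7 : (1 : ℝ) ≤ (c + 7) * X := by nlinarith
        calc (N : ℝ) ≤ K * (H : ℝ) ^ K := d5
          _ ≤ ((K : ℝ) + 1) * ((c + 7) * X) ^ K := by gcongr; linarith
          _ ≤ ((K : ℝ) + 1) * ((c + 7) * X) ^ (K + 1) := by
              gcongr
              omega
          _ = _ := by rw [mul_pow]; ring
      have d8 : (N : ℝ) ^ ε ≤ (((K : ℝ) + 1) * (c + 7) ^ (K + 1)) ^ ε * X ^ (1 / 1000 : ℝ) := by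
        calc (N : ℝ) ^ ε ≤ (((K : ℝ) + 1) * (c + 7) ^ (K + 1) * X ^ (K + 1)) ^ ε :=
              Real.rpow_le_rpow (by positivity) d3 hε0.le
          _ = (((K : ℝ) + 1) * (c + 7) ^ (K + 1)) ^ ε * (X ^ (K + 1)) ^ ε :=
              Real.mul_rpow (by positivity) (by positivity)
          _ = _ := by
              congr 1
              rw [← Real.rpow_natCast, ← Real.rpow_mul hX0.le]
              congr 1
              rw [hε]; push_cast; field_simp
      calc (D.card : ℝ) ≤ 2 ^ om N := d2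
        _ ≤ K₁ * (N : ℝ) ^ ε := hK₁ N (by omega)
        _ ≤ K₁ * ((((K : ℝ) + 1) * (c + 7) ^ (K + 1)) ^ ε * X ^ (1 / 1000 : ℝ)) := by gcongr
        _ = _ := by rw [hM]; ring
    calc ((Fa a).card : ℝ) ≤ ∑ C ∈ D, (K₂ * (2 * c + 2) * X ^ (1 / 1000 + 2 / 5 : ℝ)) :=
          h2.trans (Finset.sum_le_sum h3)
      _ = D.card * (K₂ * (2 * c + 2) * X ^ (1 / 1000 + 2 / 5 : ℝ)) := by
          rw [Finset.sum_const, nsmul_eq_mul]
      _ ≤ (M * X ^ (1 / 1000 : ℝ)) * (K₂ * (2 * c + 2) * X ^ (1 / 1000 + 2 / 5 : ℝ)) := by gcongr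
      _ = _ := by
          have : X ^ (1 / 500 + 2 / 5 : ℝ) = X ^ (1 / 1000 : ℝ) * X ^ (1 / 1000 + 2 / 5 : ℝ) := by
            rw [← Real.rpow_add hX0]; norm_num
          rw [this]; ring
  have hAcard : (A.card : ℝ) ≤ 13 * (2 * c + 1) ^ 4 * X ^ (7 / 5 : ℝ) := by
    have h1 : A.card = ∏ i : Fin 5, (2 * s i + 1) := by
      rw [hA, Fintype.card_piFinset]
      apply Finset.prod_congr rfl
      intro i _
      rw [Int.card_Icc]; omega
    rw [h1]
    push_cast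
    have e0 : (2 * (⌊c * X ^ (1 / 2 : ℝ)⌋₊ : ℝ) + 1) ≤ (2 * c + 1) * X ^ (1 / 2 : ℝ) :=
      floor_bound hc hX (by norm_num)
    have e1 : (2 * (⌊c * X ^ (2 / 5 : ℝ)⌋₊ : ℝ) + 1) ≤ (2 * c + 1) * X ^ (2 / 5 : ℝ) :=
      floor_bound hc hX (by norm_num)
    have e2 : (2 * (⌊c * X ^ (3 / 10 : ℝ)⌋₊ : ℝ) + 1) ≤ (2 * c + 1) * X ^ (3 / 10 : ℝ) :=
      floor_bound hc hX (by norm_num)
    have e3 : (2 * (⌊c * X ^ (1 / 5 : ℝ)⌋₊ : ℝ) + 1) ≤ (2 * c + 1) * X ^ (1 / 5 : ℝ) :=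
      floor_bound hc hX (by norm_num)
    have e4 : X ^ (7 / 5 : ℝ) = X ^ (1 / 2 : ℝ) * X ^ (2 / 5 : ℝ) * X ^ (3 / 10 : ℝ) *
        X ^ (1 / 5 : ℝ) := by
      rw [← Real.rpow_add hX0, ← Real.rpow_add hX0, ← Real.rpow_add hX0]; norm_num
    rw [Fin.prod_univ_five]
    show (2 * (⌊c * X ^ (1 / 2 : ℝ)⌋₊ : ℝ) + 1) * (2 * (⌊c * X ^ (2 / 5 : ℝ)⌋₊ : ℝ) + 1) *
      (2 * (⌊c * X ^ (3 / 10 : ℝ)⌋₊ : ℝ) + 1) *
        (2 * (⌊c * X ^ (1 / 5 : ℝ)⌋₊ : ℝ) + 1) * (2 * ((6 : ℕ) : ℝ) + 1) ≤ _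
    calc _ ≤ ((2 * c + 1) * X ^ (1 / 2 : ℝ)) * ((2 * c + 1) * X ^ (2 / 5 : ℝ)) *
          ((2 * c + 1) * X ^ (3 / 10 : ℝ)) *
          ((2 * c + 1) * X ^ (1 / 5 : ℝ)) * (2 * ((6 : ℕ) : ℝ) + 1) := by gcongr
      _ = _ := by rw [e4]; push_cast; ring
  have partB : ∑ a ∈ A.filter (fun a => ¬ DD a = 0), ((Fa a).card : ℝ) ≤
      13 * (2 * c + 1) ^ 4 * (M * (K₂ * (2 * c + 2))) * X ^ (1 / 500 + 9 / 5 : ℝ) := by
    refine (Finset.sum_le_sum hFb).trans ?_
    rw [Finset.sum_const, nsmul_eq_mul]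
    have h1 : ((A.filter (fun a => ¬ DD a = 0)).card : ℝ) ≤ A.card := by
      exact_mod_cast Finset.card_filter_le _ _
    calc ((A.filter (fun a => ¬ DD a = 0)).card : ℝ) *
          (M * (K₂ * (2 * c + 2)) * X ^ (1 / 500 + 2 / 5 : ℝ))
        ≤ (13 * (2 * c + 1) ^ 4 * X ^ (7 / 5 : ℝ)) *
          (M * (K₂ * (2 * c + 2)) * X ^ (1 / 500 + 2 / 5 : ℝ)) := by
          gcongr
          exact h1.trans hAcard
      _ = _ := by
          have : X ^ (1 / 500 + 9 / 5 : ℝ) = X ^ (7 / 5 : ℝ) * X ^ (1 / 500 + 2 / 5 : ℝ) := by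
            rw [← Real.rpow_add hX0]; norm_num
          rw [this]; ring
  have f1 : X ^ (3 / 2 : ℝ) ≤ X ^ (19 / 10 : ℝ) := Real.rpow_le_rpow_of_exponent_le hX (by norm_num)
  have f2 : X ^ (1 / 500 + 9 / 5 : ℝ) ≤ X ^ (19 / 10 : ℝ) :=
    Real.rpow_le_rpow_of_exponent_le hX (by norm_num)
  calc (G.ncard : ℝ) ≤ _ := hcard
    _ ≤ (2 * c + 1) * (K * (13 * (2 * c + 1) ^ 3)) * X ^ (3 / 2 : ℝ) +
        13 * (2 * c + 1) ^ 4 * (M * (K₂ * (2 * c + 2))) * X ^ (1 / 500 + 9 / 5 : ℝ) :=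
        add_le_add partA partB
    _ ≤ (2 * c + 1) * (K * (13 * (2 * c + 1) ^ 3)) * X ^ (19 / 10 : ℝ) +
        13 * (2 * c + 1) ^ 4 * (M * (K₂ * (2 * c + 2))) * X ^ (19 / 10 : ℝ) := by gcongr
    _ = _ := by ring

end Pool.Agent.H57.GF
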