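import Pool.Agent.H7.GF.Targets1
import Pool.Agent.H7.GF.Basic

/-!
Module HOMC: number of homomorphisms to the algebraic closure of `F_p`.
-/

set_option autoImplicit false
set_option linter.style.haveILetI false

namespace Pool.Agent.H57.GF

open Pool.Agent.H7.GF Polynomial NumberField Module

/-- homomorphisms of a finite field -/
lemma card_homs (p : ℕ) [Fact p.Prime] (E : Type) [Field E] [Finite E] [CharP E p]
    (k : Type) [Field k] [IsAlgClosed k] [Algebra (ZMod p) k] :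
    Finite (E →+* k) ∧ p ^ Nat.card (E →+* k) = Nat.card E := by
  letI : Algebra (ZMod p) E := ZMod.algebra E p
  have hfin : Module.Finite (ZMod p) E := Module.Finite.of_finite
  have hcomm : ∀ (f : E →+* k) (r : ZMod p), f (algebraMap (ZMod p) E r) = algebraMap (ZMod p) k r := by
    intro f r
    have : (f.comp (algebraMap (ZMod p) E)) = algebraMap (ZMod p) k := Subsingleton.elim _ _
    exact RingHom.congr_fun this r
  let ε : (E →+* k) ≃ (E →ₐ[ZMod p] k) :=
    { toFun := fun f => { f with commutes' := hcomm f }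
      invFun := fun f => f
      left_inv := fun f => by ext; rfl
      right_inv := fun f => by ext; rfl }
  haveI : Finite (E →ₐ[ZMod p] k) := inferInstance
  refine ⟨Finite.of_equiv _ ε.symm, ?_⟩
  rw [Nat.card_congr ε, AlgHom.natCard_of_splits (ZMod p) E k (fun _ ↦ IsAlgClosed.splits _),
    Module.natCard_eq_pow_finrank (K := ZMod p) (V := E), Nat.card_zmod]

lemma mem_pover {F : Type} [Field F] [NumberField F] (p : ℕ) [hp : Fact p.Prime]
    (P : Ideal (𝓞 F)) : P ∈ IsDedekindDomain.primesOverFinset (Ideal.span {(p : ℤ)}) (𝓞 F) ↔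
      P.IsPrime ∧ (p : 𝓞 F) ∈ P := by
  have hmax : (Ideal.span {(p : ℤ)}).IsMaximal :=
    Int.ideal_span_isMaximal_of_prime p
  have hne : Ideal.span {(p : ℤ)} ≠ ⊥ := by
    rw [Ne, Ideal.span_singleton_eq_bot]
    exact_mod_cast hp.out.ne_zero
  rw [IsDedekindDomain.mem_primesOverFinset_iff hne]
  constructor
  · rintro ⟨h1, h2⟩
    refine ⟨h1, ?_⟩
    have h3 : (p : ℤ) ∈ Ideal.span {(p : ℤ)} := Ideal.mem_span_singleton_self _
    rw [h2.over, Ideal.mem_comap] at h3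
    simpa using h3
  · rintro ⟨h1, h2⟩
    refine ⟨h1, ⟨?_⟩⟩
    refine hmax.eq_of_le ?_ ?_
    · exact Ideal.comap_ne_top _ h1.ne_top
    · rw [Ideal.span_le, Set.singleton_subset_iff]
      show algebraMap ℤ (𝓞 F) (p : ℤ) ∈ P
      simpa using h2

lemma quot_props {F : Type} [Field F] [NumberField F] (p : ℕ) [hp : Fact p.Prime]
    (P : Ideal (𝓞 F)) (hP : P.IsPrime) (hpP : (p : 𝓞 F) ∈ P) :
    P ≠ ⊥ ∧ P.IsMaximal ∧ Finite (𝓞 F ⧸ P) ∧ CharP (𝓞 F ⧸ P) p := by
  have hne : P ≠ ⊥ := by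
    rintro rfl
    rw [Ideal.mem_bot] at hpP
    have : (p : 𝓞 F) ≠ 0 := by exact_mod_cast hp.out.ne_zero
    exact this hpP
  have hmax : P.IsMaximal := hP.isMaximal hne
  refine ⟨hne, hmax, Ideal.finiteQuotientOfFreeOfNeBot P hne, ?_⟩
  haveI : Nontrivial (𝓞 F ⧸ P) := Ideal.Quotient.nontrivial_iff.2 hP.ne_top
  rw [CharP.charP_iff_prime_eq_zero hp.out]
  rw [← map_natCast (Ideal.Quotient.mk P), Ideal.Quotient.eq_zero_iff_mem]
  exact hpP

theorem homc : T_HOMC := by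
  intro p hp F _ _
  classical
  set k := AlgebraicClosure (ZMod p) with hk
  haveI : CharP k p := charP_of_injective_algebraMap (algebraMap (ZMod p) k).injective p
  let S := IsDedekindDomain.primesOverFinset (Ideal.span {(p : ℤ)}) (𝓞 F)
  have hS : ∀ P : S, (P : Ideal (𝓞 F)).IsPrime ∧ (p : 𝓞 F) ∈ (P : Ideal (𝓞 F)) :=
    fun P => (mem_pover p P.1).1 P.2
  have hfib : ∀ P : S, Finite ((𝓞 F ⧸ (P : Ideal (𝓞 F))) →+* k) ∧
      Nat.card ((𝓞 F ⧸ (P : Ideal (𝓞 F))) →+* k) =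
        (Ideal.absNorm (P : Ideal (𝓞 F))).factorization p := by
    intro P
    obtain ⟨h1, h2, h3, h4⟩ := quot_props p P.1 (hS P).1 (hS P).2
    letI : Field (𝓞 F ⧸ (P : Ideal (𝓞 F))) := Ideal.Quotient.field _
    obtain ⟨g1, g2⟩ := card_homs p (𝓞 F ⧸ (P : Ideal (𝓞 F))) k
    refine ⟨g1, ?_⟩
    have : Ideal.absNorm (P : Ideal (𝓞 F)) = Nat.card (𝓞 F ⧸ (P : Ideal (𝓞 F))) := by
      rw [Ideal.absNorm_apply, Submodule.cardQuot_apply]
    rw [this, ← g2, hp.out.factorization_pow, Finsupp.single_eq_same]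
  let g : (Σ P : S, ((𝓞 F ⧸ (P : Ideal (𝓞 F))) →+* k)) → (𝓞 F →+* k) :=
    fun x => x.2.comp (Ideal.Quotient.mk _)
  have hker : ∀ x, RingHom.ker (g x) = (x.1 : Ideal (𝓞 F)) := by
    intro x
    obtain ⟨h1, h2, h3, h4⟩ := quot_props p x.1.1 (hS x.1).1 (hS x.1).2
    letI : Field (𝓞 F ⧸ (x.1 : Ideal (𝓞 F))) := Ideal.Quotient.field _
    ext a
    rw [RingHom.mem_ker]
    show x.2 (Ideal.Quotient.mk _ a) = 0 ↔ _
    rw [map_eq_zero_iff x.2 (RingHom.injective x.2), Ideal.Quotient.eq_zero_iff_mem]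
  have hg : Function.Bijective g := by
    constructor
    · rintro ⟨P, ρ⟩ ⟨P', ρ'⟩ h
      have h1 : P = P' := by
        apply Subtype.ext
        rw [← hker ⟨P, ρ⟩, ← hker ⟨P', ρ'⟩, h]
      subst h1
      congr 1
      apply Ideal.Quotient.ringHom_ext
      exact h
    · intro χ
      have hprime : (RingHom.ker χ).IsPrime := RingHom.ker_isPrime χ
      have hmem : (p : 𝓞 F) ∈ RingHom.ker χ := by
        rw [RingHom.mem_ker, map_natCast, CharP.cast_eq_zero]
      refine ⟨⟨⟨RingHom.ker χ, (mem_pover p _).2 ⟨hprime, hmem⟩⟩,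
        Ideal.Quotient.lift _ χ (fun a ha => ha)⟩, ?_⟩
      ext a
      rfl
  haveI : ∀ P : S, Finite ((𝓞 F ⧸ (P : Ideal (𝓞 F))) →+* k) := fun P => (hfib P).1
  let e := Equiv.ofBijective g hg
  refine ⟨Finite.of_equiv _ e, ?_⟩
  unfold Hp
  rw [← Nat.card_congr e, Nat.card_sigma]
  calc ∑ P : S, Nat.card ((𝓞 F ⧸ (P : Ideal (𝓞 F))) →+* k)
      = ∑ P : S, (Ideal.absNorm (P : Ideal (𝓞 F))).factorization p :=
        Finset.sum_congr rfl (fun P _ => (hfib P).2)
    _ = _ := Finset.sum_coe_sort S (fun P => (Ideal.absNorm P).factorization p)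

end Pool.Agent.H57.GF
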