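import Pool.Agent.H7.GF.Targets1
import Pool.Agent.H7.GF.Basic

/-!
Module IDEM: exponent of the different, idempotent argument.
-/

set_option autoImplicit false
set_option linter.style.haveILetI false

namespace Pool.Agent.H57.GF

open Pool.Agent.H7.GF Polynomial NumberField Module

lemma zmod_local (p : ℕ) (hp : p.Prime) (s : ℕ) (hs : 1 ≤ s) : IsLocalRing (ZMod (p ^ s)) := by
  haveI : Fact p.Prime := ⟨hp⟩
  haveI : Fact (1 < p ^ s) := ⟨Nat.one_lt_pow (by omega) hp.one_lt⟩
  exact IsLocalRing.of_surjective' (PadicInt.toZModPow (p := p) s) (ZMod.ringHom_surjective _)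

/-- the trace of a nonzero idempotent over a local ring -/
lemma trace_idem {R : Type} [CommRing R] [IsLocalRing R] {ι : Type} [Fintype ι] [DecidableEq ι]
    (E : (ι → R) →ₗ[R] (ι → R)) (hE : IsIdempotentElem E) (hne : E ≠ 0) :
    ∃ r : ℕ, 1 ≤ r ∧ r ≤ Fintype.card ι ∧ LinearMap.trace R _ E = (r : R) := by
  have hEE : ∀ x, E (E x) = E x := fun x => LinearMap.congr_fun hE x
  -- the range
  have p1 : Module.Projective R (LinearMap.range E) := by
    refine Module.Projective.of_split (LinearMap.range E).subtype E.rangeRestrict ?_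
    ext ⟨y, x, rfl⟩ i
    simp [hEE]
  have f1 : Module.Finite R (LinearMap.range E) := inferInstance
  have g1 : Module.Free R (LinearMap.range E) := Module.free_of_flat_of_isLocalRing
  -- the kernel
  let c : (ι → R) →ₗ[R] LinearMap.ker E := LinearMap.codRestrict (LinearMap.ker E) (1 - E) (by
    intro x
    rw [LinearMap.mem_ker, LinearMap.sub_apply, map_sub, hEE]
    simp)
  have hc : c ∘ₗ (LinearMap.ker E).subtype = LinearMap.id := by
    ext ⟨y, hy⟩ i
    rw [LinearMap.mem_ker] at hy
    simp [c, hy]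
  have p2 : Module.Projective R (LinearMap.ker E) :=
    Module.Projective.of_split (LinearMap.ker E).subtype c hc
  have f2 : Module.Finite R (LinearMap.ker E) := by
    refine Module.Finite.of_surjective c ?_
    intro y
    exact ⟨y, LinearMap.congr_fun hc y⟩
  have g2 : Module.Free R (LinearMap.ker E) := Module.free_of_flat_of_isLocalRing
  have hproj := LinearMap.IsIdempotentElem.isProj_range E hE
  refine ⟨finrank R (LinearMap.range E), ?_, ?_, hproj.trace⟩
  · rw [Nat.one_le_iff_ne_zero, Ne, Module.finrank_eq_zero_iff_of_free,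
      Submodule.subsingleton_iff_eq_bot, LinearMap.range_eq_bot]
    exact hne
  · have h1 := (Submodule.prodEquivOfIsCompl _ _ hproj.isCompl).finrank_eq
    rw [Module.finrank_prod, Module.finrank_fintype_fun_eq_card] at h1
    omega

theorem idem : T_IDEM := by
  intro F _ _ P p e s hP hPne hp hs he hn hPe hPe1
  classical
  have hmax : P.IsMaximal := hP.isMaximal hPne
  obtain ⟨Q, hQ⟩ := hPe
  have hPQ : IsCoprime P Q := by
    rw [Ideal.isCoprime_iff_sup_eq]
    by_contra h
    have h1 : Q ≤ P := by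
      have h2 : P ⊔ Q = P := by
        by_contra h3
        have h4 : P < P ⊔ Q := lt_of_le_of_ne le_sup_left (Ne.symm h3)
        exact h (hmax.1.2 _ h4)
      rw [← h2]; exact le_sup_right
    obtain ⟨T, hT⟩ := Ideal.dvd_iff_le.2 h1
    apply hPe1
    rw [hQ, hT, ← mul_assoc, ← pow_succ]
    exact dvd_mul_right _ _
  have hco : IsCoprime (P ^ (e * s)) (Q ^ s) := hPQ.pow
  have hmul : P ^ (e * s) * Q ^ s = Ideal.span {(p : 𝓞 F) ^ s} := by
    rw [pow_mul, ← mul_pow, ← hQ, Ideal.span_singleton_pow]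
  obtain ⟨u, hu, x, hx, hux⟩ := Ideal.isCoprime_iff_exists.1 hco
  have hmap : P ^ (e * s) * Q ^ s = Ideal.map (algebraMap ℤ (𝓞 F)) (Ideal.span {(p : ℤ) ^ s}) := by
    rw [hmul, Ideal.map_span, Set.image_singleton]
    simp
  have hxP : x ∉ P ^ (e * s) := by
    intro h
    have h1 : (1 : 𝓞 F) ∈ P ^ (e * s) := by
      rw [← hux]; exact Ideal.add_mem _ hu h
    have h2 : (1 : 𝓞 F) ∈ P := Ideal.pow_le_self (by positivity) h1
    exact hP.ne_top ((Ideal.eq_top_iff_one P).2 h2)
  have hxx : x * x - x ∈ Ideal.span {(p : 𝓞 F) ^ s} := by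
    rw [← hmul]
    have h1 : x * x - x = -(u * x) := by
      have : u = 1 - x := by rw [← hux]; ring
      rw [this]; ring
    rw [h1]
    exact (Ideal.neg_mem_iff _).2 (Ideal.mul_mem_mul hu hx)
  apply not_dvd_differentIdeal_of_intTrace_not_mem ℤ (P ^ (e * s)) (Q ^ s) hmap x hx
  -- the trace
  haveI := zmod_local p hp s hs
  set R := ZMod (p ^ s) with hR
  let b := RingOfIntegers.basis F
  let ι := Module.Free.ChooseBasisIndex ℤ (𝓞 F)
  let φ : Matrix ι ι ℤ →+* Matrix ι ι R := (Int.castRingHom R).mapMatrix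
  let A : Matrix ι ι R := φ (Algebra.leftMulMatrix b x)
  have hφ : ∀ z ∈ Ideal.span {(p : 𝓞 F) ^ s}, φ (Algebra.leftMulMatrix b z) = 0 := by
    intro z hz
    obtain ⟨w, rfl⟩ := Ideal.mem_span_singleton'.1 hz
    rw [map_mul, map_mul]
    have : φ (Algebra.leftMulMatrix b ((p : 𝓞 F) ^ s)) = 0 := by
      rw [map_pow, map_natCast, map_pow, map_natCast]
      rw [← Nat.cast_pow]
      have h0 : ((p ^ s : ℕ) : R) = 0 := ZMod.natCast_self _
      ext i j
      rw [Matrix.natCast_apply]
      split_ifs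
      · exact h0
      · exact Nat.cast_zero
    rw [this, mul_zero]
  have hA : A * A = A := by
    have h1 := hφ _ hxx
    rw [map_sub, map_sub, map_mul, map_mul] at h1
    exact sub_eq_zero.1 h1
  let E : (ι → R) →ₗ[R] (ι → R) := Matrix.toLin' A
  have hE : IsIdempotentElem E := by
    show E * E = E
    show (Matrix.toLin' A) ∘ₗ (Matrix.toLin' A) = Matrix.toLin' A
    rw [← Matrix.toLin'_mul, hA]
  have hEne : E ≠ 0 := by
    intro h
    have hA0 : A = 0 := by
      have : Matrix.toLin' A = Matrix.toLin' 0 := by rw [map_zero]; exact h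
      exact Matrix.toLin'.injective this
    apply hxP
    have hle : Ideal.span {(p : 𝓞 F) ^ s} ≤ P ^ (e * s) := by
      rw [← hmul]; exact Ideal.mul_le_left
    apply hle
    have h1 : ∀ j, x * b j ∈ Ideal.span {(p : 𝓞 F) ^ s} := by
      intro j
      rw [← b.sum_repr (x * b j)]
      apply Ideal.sum_mem
      intro i _
      have h2 : (Int.castRingHom R) (Algebra.leftMulMatrix b x i j) = 0 := by
        have := congrFun (congrFun hA0 i) j
        simpa [A, φ] using this
      rw [Algebra.leftMulMatrix_eq_repr_mul] at h2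
      have h3 : ((p ^ s : ℕ) : ℤ) ∣ b.repr (x * b j) i := by
        rw [← ZMod.intCast_zmod_eq_zero_iff_dvd]
        exact h2
      obtain ⟨w, hw⟩ := h3
      rw [hw, zsmul_eq_mul]
      push_cast
      rw [mul_assoc]
      exact Ideal.mul_mem_right _ _ (Ideal.mem_span_singleton_self _)
    have h4 : x = ∑ j, b.repr 1 j • (x * b j) := by
      conv_lhs => rw [← mul_one x, ← b.sum_repr 1]
      rw [Finset.mul_sum]
      apply Finset.sum_congr rfl
      intro j _
      rw [mul_smul_comm]
    rw [h4]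
    apply Ideal.sum_mem
    intro j _
    exact (Ideal.span {(p : 𝓞 F) ^ s}).toAddSubgroup.zsmul_mem (h1 j) _
  obtain ⟨r, hr1, hr2, hr3⟩ := trace_idem E hE hEne
  have hcard : Fintype.card ι = finrank ℚ F := by
    rw [← RingOfIntegers.rank F, Module.finrank_eq_card_basis b]
  have htr : LinearMap.trace R _ E = ((Algebra.trace ℤ (𝓞 F) x : ℤ) : R) := by
    rw [LinearMap.trace_eq_matrix_trace R (Pi.basisFun R ι), LinearMap.toMatrix_eq_toMatrix',
      LinearMap.toMatrix'_toLin', Algebra.trace_eq_matrix_trace b]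
    show ∑ i, (Int.castRingHom R) (Algebra.leftMulMatrix b x i i) = _
    rw [← map_sum]
    rfl
  rw [Algebra.intTrace_eq_trace, Ideal.mem_span_singleton]
  intro hdvd
  have h5 : ((Algebra.trace ℤ (𝓞 F) x : ℤ) : R) = 0 := by
    rw [ZMod.intCast_zmod_eq_zero_iff_dvd]
    exact_mod_cast hdvd
  rw [← htr, hr3] at h5
  have h6 : p ^ s ∣ r := (ZMod.natCast_eq_zero_iff r (p ^ s)).1 h5
  have := Nat.le_of_dvd (by omega) h6
  omega

end Pool.Agent.H57.GF
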