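import Pool.Agent.H7.GF.Targets1
import Pool.Agent.H7.GF.Basic

/-!
Module SURJ: homomorphisms of `𝓞 F` to residue fields of `L` come from embeddings.
The proof uses a polynomial with coefficients invariant under the Galois group.
-/

set_option autoImplicit false
set_option linter.style.haveILetI false

namespace Pool.Agent.H57.GF

open Pool.Agent.H7.GF Polynomial NumberField Module

lemma int_of_fixed {L : Type} [Field L] [NumberField L] [IsGalois ℚ L] (z : 𝓞 L)
    (h : ∀ σ : L ≃ₐ[ℚ] L, σ (z : L) = z) : ∃ k : ℤ, (Int.castRingHom (𝓞 L)) k = z := by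
  obtain ⟨q, hq⟩ := (IsGalois.mem_range_algebraMap_iff_fixed (F := ℚ) (z : L)).2 h
  have h1 : IsIntegral ℤ q := by
    have h2 : IsIntegral ℤ (algebraMap ℚ L q) := by rw [hq]; exact z.isIntegral_coe
    exact (isIntegral_algebraMap_iff (algebraMap ℚ L).injective).1 h2
  obtain ⟨k, hk⟩ := IsIntegrallyClosed.isIntegral_iff.1 h1
  refine ⟨k, ?_⟩
  apply RingOfIntegers.ext
  rw [← hq, ← hk]
  simp

/-- every homomorphism of `𝓞 F` to a domain receiving `𝓞 L` comes from an embedding -/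
lemma conj_hom {F L : Type} [Field F] [NumberField F] [Field L] [NumberField L] [IsGalois ℚ L]
    (φ₀ : F →ₐ[ℚ] L) {κ : Type} [CommRing κ] [IsDomain κ] (ψ : 𝓞 L →+* κ) (χ : 𝓞 F →+* κ) :
    ∃ φ : F →ₐ[ℚ] L, ∀ x : 𝓞 F, χ x = ψ (RingOfIntegers.mapRingHom (φ : F →+* L) x) := by
  classical
  let b := RingOfIntegers.basis F
  let ι := Module.Free.ChooseBasisIndex ℤ (𝓞 F)
  let β : MvPolynomial ι (𝓞 F) := ∑ i, MvPolynomial.C (b i) * MvPolynomial.X i
  let m : (F →ₐ[ℚ] L) → (𝓞 F →+* 𝓞 L) := fun φ => RingOfIntegers.mapRingHom (φ : F →+* L)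
  let B : (F →ₐ[ℚ] L) → MvPolynomial ι (𝓞 L) := fun φ => MvPolynomial.map (m φ) β
  let Z : MvPolynomial ι ℤ →+* MvPolynomial ι (𝓞 L) := MvPolynomial.map (Int.castRingHom (𝓞 L))
  let Φ : Polynomial (MvPolynomial ι (𝓞 L)) := ∏ φ : F →ₐ[ℚ] L, (X - C (B φ))
  -- invariance
  have hinv : ∀ (σ : L ≃ₐ[ℚ] L),
      Φ.map (MvPolynomial.map (RingOfIntegers.mapRingHom (σ : L →+* L))) = Φ := by
    intro σ
    let s : (F →ₐ[ℚ] L) ≃ (F →ₐ[ℚ] L) :=
      { toFun := fun φ => (σ : L →ₐ[ℚ] L).comp φ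
        invFun := fun φ => (σ.symm : L →ₐ[ℚ] L).comp φ
        left_inv := fun φ => by ext x; simp
        right_inv := fun φ => by ext x; simp }
    rw [Polynomial.map_prod]
    refine Fintype.prod_equiv s _ _ ?_
    intro φ
    rw [Polynomial.map_sub, Polynomial.map_X, Polynomial.map_C]
    congr 2
    show MvPolynomial.map _ (MvPolynomial.map (m φ) β) = MvPolynomial.map (m (s φ)) β
    rw [MvPolynomial.map_map]
    rfl
  have hlift : Φ ∈ Polynomial.lifts Z := by
    rw [Polynomial.lifts_iff_coeff_lifts]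
    intro k
    show Φ.coeff k ∈ Set.range (MvPolynomial.map (Int.castRingHom (𝓞 L)))
    rw [MvPolynomial.mem_range_map_iff_coeffs_subset]
    intro c hc
    rw [Finset.mem_coe, MvPolynomial.mem_coeffs_iff] at hc
    obtain ⟨d, -, hd⟩ := hc
    rw [hd]
    apply int_of_fixed
    intro σ
    have h1 := congrArg (fun q : Polynomial (MvPolynomial ι (𝓞 L)) =>
      ((q.coeff k).coeff d : 𝓞 L)) (hinv σ)
    simp only [Polynomial.coeff_map, MvPolynomial.coeff_map] at h1
    have h2 := congrArg (fun z : 𝓞 L => (z : L)) h1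
    exact h2
  obtain ⟨Φ₀, hΦ₀⟩ := hlift
  rw [Polynomial.coe_mapRingHom] at hΦ₀
  -- the universal polynomial vanishes at β
  let ZF : MvPolynomial ι ℤ →+* MvPolynomial ι (𝓞 F) := MvPolynomial.map (Int.castRingHom (𝓞 F))
  have hZ : ∀ φ : F →ₐ[ℚ] L, (MvPolynomial.map (m φ)).comp ZF = Z := by
    intro φ
    ext i
    · simp [ZF, Z]
    · simp [ZF, Z]
  have hvan : Polynomial.eval₂ ZF β Φ₀ = 0 := by
    have hinj : Function.Injective (MvPolynomial.map (σ := ι) (m φ₀)) := by
      apply MvPolynomial.map_injective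
      intro x y hxy
      apply RingOfIntegers.ext
      apply φ₀.toRingHom.injective
      exact congrArg (fun z : 𝓞 L => (z : L)) hxy
    apply hinj
    rw [map_zero, Polynomial.hom_eval₂, hZ, ← Polynomial.eval_map, hΦ₀, Polynomial.eval_prod]
    apply Finset.prod_eq_zero (Finset.mem_univ φ₀)
    rw [Polynomial.eval_sub, Polynomial.eval_X, Polynomial.eval_C]
    exact sub_self _
  have hvan2 : ∏ φ : F →ₐ[ℚ] L, (MvPolynomial.map χ β - MvPolynomial.map ψ (B φ)) = 0 := by
    have h1 := congrArg (MvPolynomial.map (σ := ι) χ) hvan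
    rw [map_zero, Polynomial.hom_eval₂] at h1
    have h2 : (MvPolynomial.map (σ := ι) χ).comp ZF = (MvPolynomial.map ψ).comp Z := by
      ext i
      · simp [ZF, Z]
      · simp [ZF, Z]
    rw [h2, ← Polynomial.eval₂_map, hΦ₀, Polynomial.eval₂_finsetProd] at h1
    rw [← h1]
    apply Finset.prod_congr rfl
    intro φ _
    rw [Polynomial.eval₂_sub, Polynomial.eval₂_X, Polynomial.eval₂_C]
  obtain ⟨φ, -, hφ⟩ := Finset.prod_eq_zero_iff.1 hvan2
  refine ⟨φ, ?_⟩
  have h3 : ∀ i, χ (b i) = ψ (m φ (b i)) := by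
    intro i
    have h4 := congrArg (MvPolynomial.coeff (Finsupp.single i 1)) (sub_eq_zero.1 hφ)
    have h5 : ∀ (A : Type) [CommRing A] (g : 𝓞 F →+* A),
        (MvPolynomial.map g β).coeff (Finsupp.single i 1) = g (b i) := by
      intro A _ g
      rw [MvPolynomial.coeff_map]
      congr 1
      rw [MvPolynomial.coeff_sum, Finset.sum_eq_single i]
      · rw [MvPolynomial.coeff_C_mul, MvPolynomial.coeff_X, if_pos rfl, mul_one]
      · intro j _ hj
        rw [MvPolynomial.coeff_C_mul, MvPolynomial.coeff_X, if_neg, mul_zero]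
        intro h
        exact hj (Finsupp.single_left_injective one_ne_zero h)
      · intro h; exact absurd (Finset.mem_univ i) h
    rw [h5 κ χ] at h4
    show χ (b i) = ψ (m φ (b i))
    rw [h4]
    show MvPolynomial.coeff _ (MvPolynomial.map ψ (MvPolynomial.map (m φ) β)) = _
    rw [MvPolynomial.map_map, h5 κ (ψ.comp (m φ))]
    rfl
  intro x
  have h6 : (χ : 𝓞 F →+* κ).toAddMonoidHom.toIntLinearMap =
      (ψ.comp (m φ)).toAddMonoidHom.toIntLinearMap := by
    apply b.ext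
    intro i
    exact h3 i
  exact LinearMap.congr_fun h6 x

theorem surj : T_SURJ := by
  intro F L _ _ _ _ _ P hP ⟨φ₀⟩ κ _ _ π χ
  obtain ⟨φ, hφ⟩ := conj_hom φ₀ (π.comp (Ideal.Quotient.mk P)) χ
  exact ⟨φ, fun x => ⟨RingOfIntegers.mapRingHom (φ : F →+* L) x, rfl, hφ x⟩⟩

end Pool.Agent.H57.GF
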