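import Pool.Agent.H57.GF.VP
import Pool.Agent.H57.GF.SURJ

/-!
Module SWAP: if `p` divides the discriminant exactly once, the Galois group contains
a transposition.
-/

set_option autoImplicit false
set_option linter.style.haveILetI false

namespace Pool.Agent.H57.GF

open Pool.Agent.H7.GF Polynomial NumberField Module

lemma int_of_fixed_rel {K L : Type} [Field K] [NumberField K] [Field L] [NumberField L]
    [Algebra K L] [FiniteDimensional K L] [IsGalois K L] (z : 𝓞 L)
    (h : ∀ σ : L ≃ₐ[K] L, σ (z : L) = z) : ∃ k : 𝓞 K, algebraMap (𝓞 K) (𝓞 L) k = z := by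
  obtain ⟨q, hq⟩ := (IsGalois.mem_range_algebraMap_iff_fixed (F := K) (z : L)).2 h
  have h1 : IsIntegral ℤ q := by
    have h2 : IsIntegral ℤ (algebraMap K L q) := by rw [hq]; exact z.isIntegral_coe
    exact (isIntegral_algebraMap_iff (algebraMap K L).injective).1 h2
  refine ⟨⟨q, h1⟩, ?_⟩
  apply RingOfIntegers.ext
  exact hq

/-- relative conjugation lemma -/
lemma conj_hom_rel {K L : Type} [Field K] [NumberField K] [Field L] [NumberField L] [Algebra K L]
    [FiniteDimensional K L] [IsGalois K L] {κ : Type} [CommRing κ] [IsDomain κ]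
    (ψ χ : 𝓞 L →+* κ)
    (hagree : ∀ x : 𝓞 K, χ (algebraMap (𝓞 K) (𝓞 L) x) = ψ (algebraMap (𝓞 K) (𝓞 L) x)) :
    ∃ φ : L ≃ₐ[K] L, ∀ x : 𝓞 L, χ x = ψ (RingOfIntegers.mapRingHom (φ : L →+* L) x) := by
  classical
  let b := RingOfIntegers.basis L
  let ι := Module.Free.ChooseBasisIndex ℤ (𝓞 L)
  let β : MvPolynomial ι (𝓞 L) := ∑ i, MvPolynomial.C (b i) * MvPolynomial.X i
  let m : (L ≃ₐ[K] L) → (𝓞 L →+* 𝓞 L) := fun φ => RingOfIntegers.mapRingHom (φ : L →+* L)
  let B : (L ≃ₐ[K] L) → MvPolynomial ι (𝓞 L) := fun φ => MvPolynomial.map (m φ) β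
  let Z : MvPolynomial ι (𝓞 K) →+* MvPolynomial ι (𝓞 L) := MvPolynomial.map (algebraMap (𝓞 K) (𝓞 L))
  let Φ : Polynomial (MvPolynomial ι (𝓞 L)) := ∏ φ : L ≃ₐ[K] L, (X - C (B φ))
  -- invariance
  have hinv : ∀ (σ : L ≃ₐ[K] L),
      Φ.map (MvPolynomial.map (RingOfIntegers.mapRingHom (σ : L →+* L))) = Φ := by
    intro σ
    rw [Polynomial.map_prod]
    refine Fintype.prod_equiv (Equiv.mulLeft σ) _ _ ?_
    intro φ
    rw [Polynomial.map_sub, Polynomial.map_X, Polynomial.map_C]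
    congr 2
    show MvPolynomial.map _ (MvPolynomial.map (m φ) β) = MvPolynomial.map (m (σ * φ)) β
    rw [MvPolynomial.map_map]
    rfl
  have hlift : Φ ∈ Polynomial.lifts Z := by
    rw [Polynomial.lifts_iff_coeff_lifts]
    intro k
    show Φ.coeff k ∈ Set.range (MvPolynomial.map (algebraMap (𝓞 K) (𝓞 L)))
    rw [MvPolynomial.mem_range_map_iff_coeffs_subset]
    intro c hc
    rw [Finset.mem_coe, MvPolynomial.mem_coeffs_iff] at hc
    obtain ⟨d, -, hd⟩ := hc
    rw [hd]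
    apply int_of_fixed_rel
    intro σ
    have h1 := congrArg (fun q : Polynomial (MvPolynomial ι (𝓞 L)) =>
      ((q.coeff k).coeff d : 𝓞 L)) (hinv σ)
    simp only [Polynomial.coeff_map, MvPolynomial.coeff_map] at h1
    have h2 := congrArg (fun z : 𝓞 L => (z : L)) h1
    exact h2
  obtain ⟨Φ₀, hΦ₀⟩ := hlift
  rw [Polynomial.coe_mapRingHom] at hΦ₀
  have hvan : Polynomial.eval₂ Z β Φ₀ = 0 := by
    rw [← Polynomial.eval_map, hΦ₀, Polynomial.eval_prod]
    apply Finset.prod_eq_zero (Finset.mem_univ (1 : L ≃ₐ[K] L))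
    rw [Polynomial.eval_sub, Polynomial.eval_X, Polynomial.eval_C]
    have : B 1 = β := by
      show MvPolynomial.map (m 1) β = β
      have h1 : m 1 = RingHom.id _ := by
        ext x; rfl
      rw [h1, MvPolynomial.map_id]
    rw [this, sub_self]
  have hvan2 : ∏ φ : L ≃ₐ[K] L, (MvPolynomial.map χ β - MvPolynomial.map ψ (B φ)) = 0 := by
    have h1 := congrArg (MvPolynomial.map (σ := ι) χ) hvan
    rw [map_zero, Polynomial.hom_eval₂] at h1
    have h2 : (MvPolynomial.map (σ := ι) χ).comp Z = (MvPolynomial.map ψ).comp Z := by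
      ext i
      · simp [Z, hagree]
      · simp [Z]
    rw [h2, ← Polynomial.eval₂_map, hΦ₀, Polynomial.eval₂_finsetProd] at h1
    rw [← h1]
    apply Finset.prod_congr rfl
    intro φ _
    rw [Polynomial.eval₂_sub, Polynomial.eval₂_X, Polynomial.eval₂_C]
  obtain ⟨φ, -, hφ⟩ := Finset.prod_eq_zero_iff.1 hvan2
  refine ⟨φ, ?_⟩
  have h3 : ∀ i, χ (b i) = ψ (m φ (b i)) := by
    intro i
    have h4 := congrArg (MvPolynomial.coeff (Finsupp.single i 1)) (sub_eq_zero.1 hφ)
    have h5 : ∀ (A : Type) [CommRing A] (g : 𝓞 L →+* A),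
        (MvPolynomial.map g β).coeff (Finsupp.single i 1) = g (b i) := by
      intro A _ g
      rw [MvPolynomial.coeff_map]
      congr 1
      rw [MvPolynomial.coeff_sum, Finset.sum_eq_single i]
      · rw [MvPolynomial.coeff_C_mul, MvPolynomial.coeff_X, if_pos rfl, mul_one]
      · intro j _ hj
        rw [MvPolynomial.coeff_C_mul, MvPolynomial.coeff_X, if_neg, mul_zero]
        intro h
        exact hj (Finsupp.single_left_injective one_ne_zero h)
      · intro h; exact absurd (Finset.mem_univ i) h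
    rw [h5 κ χ] at h4
    show χ (b i) = ψ (m φ (b i))
    rw [h4]
    show MvPolynomial.coeff _ (MvPolynomial.map ψ (MvPolynomial.map (m φ) β)) = _
    rw [MvPolynomial.map_map, h5 κ (ψ.comp (m φ))]
    rfl
  intro x
  have h6 : (χ : 𝓞 L →+* κ).toAddMonoidHom.toIntLinearMap =
      (ψ.comp (m φ)).toAddMonoidHom.toIntLinearMap := by
    apply b.ext
    intro i
    exact h3 i
  exact LinearMap.congr_fun h6 x

/-- there is a homomorphism to the algebraic closure -/
lemma exists_hom (p : ℕ) [hp : Fact p.Prime] (L : Type) [Field L] [NumberField L] :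
    Nonempty (𝓞 L →+* AlgebraicClosure (ZMod p)) := by
  have hne : Ideal.span {(p : 𝓞 L)} ≠ ⊤ := by
    intro h
    rw [Ideal.span_singleton_eq_top] at h
    have h1 := Ideal.absNorm_span_natCast (S := 𝓞 L) p
    rw [Ideal.span_singleton_eq_top.2 h, Ideal.absNorm_top] at h1
    have h2 : 0 < finrank ℤ (𝓞 L) := by rw [RingOfIntegers.rank]; exact finrank_pos
    have h3 := Nat.one_lt_pow h2.ne' hp.out.one_lt
    omega
  obtain ⟨P, hP, hle⟩ := Ideal.exists_le_maximal _ hne
  have hpP : (p : 𝓞 L) ∈ P := hle (Ideal.mem_span_singleton_self _)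
  obtain ⟨h1, h2, h3, h4⟩ := quot_props p P hP.isPrime hpP
  letI : Field (𝓞 L ⧸ P) := Ideal.Quotient.field _
  obtain ⟨g1, g2⟩ := card_homs p (𝓞 L ⧸ P) (AlgebraicClosure (ZMod p))
  have h5 : 1 < Nat.card (𝓞 L ⧸ P) := Finite.one_lt_card
  have h6 : Nat.card ((𝓞 L ⧸ P) →+* AlgebraicClosure (ZMod p)) ≠ 0 := by
    intro h0
    rw [h0, pow_zero] at g2
    omega
  obtain ⟨ρ⟩ := (Nat.card_ne_zero.1 h6).1
  exact ⟨ρ.comp (Ideal.Quotient.mk P)⟩

theorem swap : T_SWAP := by
  intro p hp F L _ _ _ _ _ hnp hv hne htop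
  classical
  obtain ⟨φ₀⟩ := hne
  set κ := AlgebraicClosure (ZMod p) with hκ
  obtain ⟨ψ⟩ := exists_hom p L
  haveI hfin : Finite (𝓞 F →+* κ) := (homc p F).1
  haveI : Finite (F →ₐ[ℚ] L) := inferInstance
  set n := finrank ℚ F with hn
  have hn1 : 0 < n := finrank_pos
  have hcardE : Nat.card (F →ₐ[ℚ] L) = n := by
    apply AlgHom.natCard_of_splits ℚ F L
    intro x
    have h1 : minpoly ℚ (φ₀ x) = minpoly ℚ x := minpoly.algHom_eq φ₀ φ₀.toRingHom.injective x
    rw [← h1]
    exact Normal.splits inferInstance _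
  obtain ⟨v1, v2, -⟩ := vp p F
  rw [hv] at v1 v2
  have v2' := v2 hnp
  have hcardH : Nat.card (𝓞 F →+* κ) + 1 = n := by
    show Hp p F + 1 = n
    omega
  let m : (F →ₐ[ℚ] L) → (𝓞 F →+* 𝓞 L) := fun φ => RingOfIntegers.mapRingHom (φ : F →+* L)
  let Φ : (F →ₐ[ℚ] L) → (𝓞 F →+* κ) := fun φ => ψ.comp (m φ)
  have hsurj : Function.Surjective Φ := by
    intro χ
    obtain ⟨φ, hφ⟩ := conj_hom φ₀ ψ χ
    refine ⟨φ, ?_⟩
    ext x
    exact (hφ x).symm
  -- the action of the group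
  let act : (L ≃ₐ[ℚ] L) → (F →ₐ[ℚ] L) → (F →ₐ[ℚ] L) := fun σ φ => σ.toAlgHom.comp φ
  have hact_inj : ∀ σ, Function.Injective (act σ) := by
    intro σ φ φ' h
    ext x
    apply σ.injective
    exact AlgHom.congr_fun h x
  -- inertia
  let I : (L ≃ₐ[ℚ] L) → Prop := fun σ =>
    ∀ y : 𝓞 L, ψ (RingOfIntegers.mapRingHom (σ : L →+* L) y) = ψ y
  have hI : ∀ σ, I σ → ∀ φ, Φ (act σ φ) = Φ φ := by
    intro σ hσ φ
    ext x
    exact hσ (m φ x)
  -- there is a nontrivial element in the inertia group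
  have hex : ∃ σ, I σ ∧ σ ≠ 1 := by
    by_contra hno
    push Not at hno
    have hinj : Function.Injective Φ := by
      intro φ₁ φ₂ h
      have hx : ∀ x : 𝓞 F, ψ (m φ₁ x) = ψ (m φ₂ x) := fun x => RingHom.congr_fun h x
      -- extend `φ₂ ∘ φ₁⁻¹`
      let K₁ : IntermediateField ℚ L := φ₁.fieldRange
      let e₁ : F ≃ₐ[ℚ] K₁ := AlgEquiv.ofInjectiveField φ₁
      let ϕ : K₁ →ₐ[ℚ] L := φ₂.comp (e₁.symm : K₁ →ₐ[ℚ] F)
      let g₀ : L →ₐ[ℚ] L := ϕ.liftNormal L
      have hg₀ : ∀ x : F, g₀ (φ₁ x) = φ₂ x := by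
        intro x
        have h1 := AlgHom.liftNormal_commutes ϕ L (e₁ x)
        have h2 : algebraMap K₁ L (e₁ x) = φ₁ x := rfl
        rw [h2] at h1
        show (ϕ.liftNormal L) (φ₁ x) = φ₂ x
        rw [h1]
        show φ₂ (e₁.symm (e₁ x)) = φ₂ x
        rw [AlgEquiv.symm_apply_apply]
      let g : L ≃ₐ[ℚ] L := AlgEquiv.ofBijective g₀ (Algebra.IsAlgebraic.algHom_bijective g₀)
      have hg : ∀ x, g x = g₀ x := fun x => rfl
      haveI : IsGalois K₁ L := IsGalois.tower_top_intermediateField K₁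
      obtain ⟨τ, hτ⟩ := conj_hom_rel (K := K₁) (L := L) ψ
        (ψ.comp (RingOfIntegers.mapRingHom (g : L →+* L))) (by
          intro y
          -- `y` comes from `F`
          have hint : IsIntegral ℤ (e₁.symm (y : K₁)) := by
            exact (y.isIntegral_coe).map (e₁.symm : K₁ →ₐ[ℚ] F)
          let x : 𝓞 F := ⟨e₁.symm (y : K₁), hint⟩
          have h1 : algebraMap (𝓞 K₁) (𝓞 L) y = m φ₁ x := by
            apply RingOfIntegers.ext
            show algebraMap K₁ L (y : K₁) = φ₁ (e₁.symm (y : K₁))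
            have : (y : K₁) = e₁ (e₁.symm (y : K₁)) := (AlgEquiv.apply_symm_apply _ _).symm
            conv_lhs => rw [this]
            rfl
          rw [h1, RingHom.comp_apply]
          have h2 : RingOfIntegers.mapRingHom (g : L →+* L) (m φ₁ x) = m φ₂ x := by
            apply RingOfIntegers.ext
            show g (φ₁ (e₁.symm (y : K₁))) = φ₂ (e₁.symm (y : K₁))
            rw [hg, hg₀]
          rw [h2]
          exact (hx x).symm)
      let τ' : L ≃ₐ[ℚ] L := τ.restrictScalars ℚ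
      have hgt : g * τ'⁻¹ = 1 := by
        apply hno
        intro y
        have h1 := hτ (RingOfIntegers.mapRingHom ((τ'⁻¹ : L ≃ₐ[ℚ] L) : L →+* L) y)
        have h2 : RingOfIntegers.mapRingHom (τ : L →+* L)
            (RingOfIntegers.mapRingHom ((τ'⁻¹ : L ≃ₐ[ℚ] L) : L →+* L) y) = y := by
          apply RingOfIntegers.ext
          show τ' (τ'⁻¹ (y : L)) = y
          rw [← AlgEquiv.mul_apply, mul_inv_cancel]
          rfl
        rw [h2] at h1
        exact h1
      have hgτ : g = τ' := mul_inv_eq_one.1 hgt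
      ext x
      have h3 : φ₂ x = g (φ₁ x) := by rw [hg, hg₀]
      rw [h3, hgτ]
      show φ₁ x = τ (φ₁ x)
      exact (τ.commutes (e₁ x)).symm
    have := Nat.card_le_card_of_injective Φ hinj
    rw [hcardE] at this
    omega
  obtain ⟨σ, hσI, hσ1⟩ := hex
  -- the two elements of the big fibre
  have hnotinj : ¬ Function.Injective Φ := by
    intro hinj
    have := Nat.card_le_card_of_injective Φ hinj
    rw [hcardE] at this
    omega
  rw [Function.not_injective_iff] at hnotinj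
  obtain ⟨φ₁, φ₂, h12, hne12⟩ := hnotinj
  have huniq : ∀ c d : F →ₐ[ℚ] L, c ≠ d → Φ c = Φ d → ∀ φ ψ' : F →ₐ[ℚ] L, φ ≠ ψ' → Φ φ = Φ ψ' →
      c = φ ∨ d = φ := by
    intro c d hcd hΦ φ ψ' hφψ hΦ'
    by_contra hcon
    push Not at hcon
    -- the complement of φ maps onto everything
    let r : {a : F →ₐ[ℚ] L // a ≠ φ} → (𝓞 F →+* κ) := fun a => Φ a
    have hr : Function.Surjective r := by
      intro χ
      obtain ⟨a, ha⟩ := hsurj χ
      by_cases h : a = φ
      · refine ⟨⟨ψ', hφψ.symm⟩, ?_⟩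
        show Φ ψ' = χ
        rw [← hΦ', ← h, ha]
      · exact ⟨⟨a, h⟩, ha⟩
    have hcard : Nat.card {a : F →ₐ[ℚ] L // a ≠ φ} = Nat.card (𝓞 F →+* κ) := by
      have h1 : Nat.card {a : F →ₐ[ℚ] L // a ≠ φ} + 1 = n := by
        rw [← hcardE]
        have := Fintype.ofFinite (F →ₐ[ℚ] L)
        rw [Nat.card_eq_fintype_card, Nat.card_eq_fintype_card, Fintype.card_subtype_compl,
          Fintype.card_subtype_eq]
        have : 0 < Fintype.card (F →ₐ[ℚ] L) := Fintype.card_pos_iff.2 ⟨φ⟩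
        omega
      omega
    have hbij : Function.Bijective r :=
      (Nat.bijective_iff_surjective_and_card r).2 ⟨hr, hcard⟩
    have := hbij.1 (a₁ := ⟨c, hcon.1⟩) (a₂ := ⟨d, hcon.2⟩) hΦ
    exact hcd (congrArg Subtype.val this)
  -- σ moves something
  have hmove : ∃ φ, act σ φ ≠ φ := by
    by_contra hno
    push Not at hno
    apply hσ1
    have hle : (⊤ : IntermediateField ℚ L) ≤
        IntermediateField.fixedField (Subgroup.zpowers σ) := by
      rw [← htop]
      apply iSup_le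
      rintro φ _ ⟨x, rfl⟩
      rw [IntermediateField.mem_fixedField_iff]
      intro f hf
      have h1 : σ (φ x) = φ x := AlgHom.congr_fun (hno φ) x
      have h2 : σ ∈ MulAction.stabilizer (L ≃ₐ[ℚ] L) (φ x) := h1
      have h3 : Subgroup.zpowers σ ≤ MulAction.stabilizer (L ≃ₐ[ℚ] L) (φ x) := by
        rw [Subgroup.zpowers_le]; exact h2
      exact h3 hf
    ext x
    have hx : x ∈ IntermediateField.fixedField (Subgroup.zpowers σ) := hle IntermediateField.mem_top
    rw [IntermediateField.mem_fixedField_iff] at hx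
    exact hx σ (Subgroup.mem_zpowers σ)
  obtain ⟨φ, hφ⟩ := hmove
  -- φ and σφ are the two elements of the big fibre
  set φ' := act σ φ with hφ'
  have hΦφ : Φ φ' = Φ φ := hI σ hσI φ
  refine ⟨σ, φ, φ', hφ.symm, rfl, ?_, ?_⟩
  · -- σ φ' = φ
    have h1 : act σ φ' ≠ φ' := by
      intro h
      exact hφ (hact_inj σ h)
    have h2 : Φ (act σ φ') = Φ φ' := hI σ hσI φ'
    rcases huniq _ _ h1 h2 φ φ' hφ.symm hΦφ.symm with h | h
    · exact h
    · exact absurd h hφ
  · intro χ hχ1 hχ2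
    by_contra h
    have h1 : act σ χ ≠ χ := h
    have h2 : Φ (act σ χ) = Φ χ := hI σ hσI χ
    rcases huniq _ _ h1 h2 φ φ' hφ.symm hΦφ.symm with h3 | h3
    · rcases huniq _ _ h1 h2 φ' φ hφ hΦφ with h4 | h4
      · exact hφ (h4.symm.trans h3)
      · exact hχ2 h4
    · exact hχ1 h3

end Pool.Agent.H57.GF
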