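import Pool.Agent.H57.GF.HOMC
import Pool.Agent.H57.GF.IDEM

/-!
Module VP: discriminant exponent and number of homomorphisms.
-/

set_option autoImplicit false
set_option linter.style.haveILetI false

namespace Pool.Agent.H57.GF

open Pool.Agent.H7.GF Polynomial NumberField Module UniqueFactorizationMonoid

variable {F : Type} [Field F] [NumberField F]

lemma pow_dvd_iff_count (P I : Ideal (𝓞 F)) (hP : P.IsPrime) (hPne : P ≠ ⊥) (hI : I ≠ ⊥) (k : ℕ) :
    P ^ k ∣ I ↔ k ≤ (normalizedFactors I).count P := by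
  have h1 : Irreducible P := (Ideal.prime_of_isPrime hPne hP).irreducible
  rw [pow_dvd_iff_le_emultiplicity, emultiplicity_eq_count_normalizedFactors h1 hI, normalize_eq]
  exact_mod_cast Iff.rfl

lemma mem_of_dvd_absNorm (p : ℕ) [hp : Fact p.Prime] (Q : Ideal (𝓞 F)) (hQ : Q.IsPrime)
    (hQne : Q ≠ ⊥) (h : p ∣ Ideal.absNorm Q) : (p : 𝓞 F) ∈ Q := by
  haveI : Finite (𝓞 F ⧸ Q) := Ideal.finiteQuotientOfFreeOfNeBot Q hQne
  haveI : Q.IsMaximal := hQ.isMaximal hQne
  letI : Field (𝓞 F ⧸ Q) := Ideal.Quotient.field _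
  rw [Ideal.absNorm_apply, Submodule.cardQuot_apply] at h
  obtain ⟨x, hx⟩ := exists_prime_addOrderOf_dvd_card' p h
  have h1 : (p : 𝓞 F ⧸ Q) * x = 0 := by
    rw [← nsmul_eq_mul, ← hx]
    exact addOrderOf_nsmul_eq_zero x
  have hx0 : x ≠ 0 := by
    rintro rfl
    rw [addOrderOf_zero] at hx
    exact hp.out.one_lt.ne hx
  have h2 : (p : 𝓞 F ⧸ Q) = 0 := by
    rcases mul_eq_zero.1 h1 with h | h
    · exact h
    · exact absurd h hx0
  rw [← Ideal.Quotient.eq_zero_iff_mem, map_natCast]
  exact h2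

/-- exponent of `p` in the norm of an ideal -/
lemma fact_absNorm (p : ℕ) [hp : Fact p.Prime] (I : Ideal (𝓞 F)) (hI : I ≠ ⊥) :
    (Ideal.absNorm I).factorization p =
      ∑ P ∈ IsDedekindDomain.primesOverFinset (Ideal.span {(p : ℤ)}) (𝓞 F),
        (normalizedFactors I).count P * (Ideal.absNorm P).factorization p := by
  classical
  have hprime : ∀ Q ∈ normalizedFactors I, Q.IsPrime ∧ Q ≠ ⊥ := by
    intro Q hQ
    have h1 := prime_of_normalized_factor Q hQ
    exact ⟨Ideal.isPrime_of_prime h1, h1.ne_zero⟩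
  have h1 : Ideal.absNorm I = ((normalizedFactors I).map Ideal.absNorm).prod := by
    conv_lhs => rw [← Ideal.prod_normalizedFactors_eq_self hI]
    rw [map_multiset_prod]
  have h2 : ∀ s : Multiset (Ideal (𝓞 F)), (∀ Q ∈ s, Q ≠ ⊥) →
      ((s.map Ideal.absNorm).prod).factorization p =
      (s.map (fun Q => (Ideal.absNorm Q).factorization p)).sum := by
    intro s
    induction s using Multiset.induction_on with
    | empty => intro _; simp
    | cons Q s ih =>
      intro hs
      have hne : ∀ Q ∈ s, Q ≠ ⊥ := fun Q' hQ' => hs Q' (Multiset.mem_cons_of_mem hQ')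
      rw [Multiset.map_cons, Multiset.prod_cons, Multiset.map_cons, Multiset.sum_cons,
        Nat.factorization_mul, Finsupp.add_apply, ih hne]
      · rw [Ne, Ideal.absNorm_eq_zero_iff]
        exact hs Q (Multiset.mem_cons_self Q s)
      · rw [Ne, Multiset.prod_eq_zero_iff, Multiset.mem_map]
        rintro ⟨Q', hQ', h0⟩
        exact hne Q' hQ' (Ideal.absNorm_eq_zero_iff.1 h0)
  rw [h1, h2 _ (fun Q hQ => (hprime Q hQ).2), Finset.sum_multiset_map_count]
  simp only [smul_eq_mul]
  -- compare the two index sets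
  set S := IsDedekindDomain.primesOverFinset (Ideal.span {(p : ℤ)}) (𝓞 F) with hS
  set T := (normalizedFactors I).toFinset with hT
  have e1 : ∑ Q ∈ T, (normalizedFactors I).count Q * (Ideal.absNorm Q).factorization p =
      ∑ Q ∈ T ∩ S, (normalizedFactors I).count Q * (Ideal.absNorm Q).factorization p := by
    symm
    apply Finset.sum_subset Finset.inter_subset_left
    intro Q hQ hQ'
    rw [hT, Multiset.mem_toFinset] at hQ
    have h3 : Q ∉ S := fun h => hQ' (Finset.mem_inter.2 ⟨by rw [hT, Multiset.mem_toFinset]; exact hQ, h⟩)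
    have h4 : (Ideal.absNorm Q).factorization p = 0 := by
      apply Nat.factorization_eq_zero_of_not_dvd
      intro hd
      exact h3 ((mem_pover p Q).2 ⟨(hprime Q hQ).1,
        mem_of_dvd_absNorm p Q (hprime Q hQ).1 (hprime Q hQ).2 hd⟩)
    rw [h4, mul_zero]
  have e2 : ∑ Q ∈ S, (normalizedFactors I).count Q * (Ideal.absNorm Q).factorization p =
      ∑ Q ∈ T ∩ S, (normalizedFactors I).count Q * (Ideal.absNorm Q).factorization p := by
    symm
    apply Finset.sum_subset Finset.inter_subset_right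
    intro Q hQ hQ'
    have h3 : Q ∉ normalizedFactors I := fun h =>
      hQ' (Finset.mem_inter.2 ⟨by rw [hT, Multiset.mem_toFinset]; exact h, hQ⟩)
    rw [Multiset.count_eq_zero_of_notMem h3, zero_mul]
  rw [e1, e2]

theorem vp : T_VP := by
  intro p hp F _ _
  classical
  set S := IsDedekindDomain.primesOverFinset (Ideal.span {(p : ℤ)}) (𝓞 F) with hS
  set n := finrank ℚ F with hn
  set f : Ideal (𝓞 F) → ℕ := fun P => (Ideal.absNorm P).factorization p with hf
  set ep : Ideal (𝓞 F) → ℕ := fun P => (normalizedFactors (Ideal.span {(p : 𝓞 F)})).count P with hep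
  set v : Ideal (𝓞 F) → ℕ := fun P => (normalizedFactors (differentIdeal ℤ (𝓞 F))).count P with hv
  have hp0 : Ideal.span {(p : 𝓞 F)} ≠ ⊥ := by
    rw [Ne, Ideal.span_singleton_eq_bot]
    exact_mod_cast hp.out.ne_zero
  have hd0 : differentIdeal ℤ (𝓞 F) ≠ ⊥ := differentIdeal_ne_bot
  have hmap : Ideal.map (algebraMap ℤ (𝓞 F)) (Ideal.span {(p : ℤ)}) = Ideal.span {(p : 𝓞 F)} := by
    rw [Ideal.map_span, Set.image_singleton]; simp
  have hHp : Hp p F = ∑ P ∈ S, f P := (homc p F).2
  have hD : (discr F).natAbs.factorization p = ∑ P ∈ S, v P * f P := by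
    rw [← NumberField.absNorm_differentIdeal (K := F) (𝒪 := 𝓞 F)]
    exact fact_absNorm p _ hd0
  have hN : n = ∑ P ∈ S, ep P * f P := by
    have h1 := fact_absNorm (F := F) p _ hp0
    rw [← h1, Ideal.absNorm_span_natCast, hp.out.factorization_pow, Finsupp.single_eq_same,
      RingOfIntegers.rank]
  have hSp : ∀ P ∈ S, P.IsPrime ∧ (p : 𝓞 F) ∈ P ∧ P ≠ ⊥ := by
    intro P hP
    obtain ⟨h1, h2⟩ := (mem_pover p P).1 hP
    exact ⟨h1, h2, (quot_props p P h1 h2).1⟩
  have he1 : ∀ P ∈ S, 1 ≤ ep P := by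
    intro P hP
    obtain ⟨h1, h2, h3⟩ := hSp P hP
    rw [hep, ← pow_dvd_iff_count P _ h1 h3 hp0, pow_one, Ideal.dvd_iff_le, Ideal.span_le,
      Set.singleton_subset_iff]
    exact h2
  refine ⟨?_, ?_, ?_⟩
  · -- lower bound
    rw [hD, hHp, hN, ← Finset.sum_add_distrib]
    apply Finset.sum_le_sum
    intro P hP
    obtain ⟨h1, h2, h3⟩ := hSp P hP
    have hmaxp : (Ideal.span {(p : ℤ)}).IsMaximal := Int.ideal_span_isMaximal_of_prime p
    have hnep : Ideal.span {(p : ℤ)} ≠ ⊥ := by
      rw [Ne, Ideal.span_singleton_eq_bot]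
      exact_mod_cast hp.out.ne_zero
    have h4 : P ^ (ep P - 1) ∣ differentIdeal ℤ (𝓞 F) := by
      apply pow_sub_one_dvd_differentIdeal ℤ (p := Ideal.span {(p : ℤ)}) P (ep P) hnep
      rw [hmap, pow_dvd_iff_count P _ h1 h3 hp0]
    rw [pow_dvd_iff_count P _ h1 h3 hd0] at h4
    have h5 : ep P ≤ v P + 1 := by
      show ep P ≤ (normalizedFactors (differentIdeal ℤ (𝓞 F))).count P + 1
      omega
    calc ep P * f P ≤ (v P + 1) * f P := Nat.mul_le_mul_right _ h5
      _ = v P * f P + f P := by ring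
  · intro hnp
    rw [hD, hHp, ← Finset.sum_add_distrib]
    conv_rhs => rw [hN]
    apply Finset.sum_le_sum
    intro P hP
    obtain ⟨h1, h2, h3⟩ := hSp P hP
    have h4 := idem F P p (ep P) 1 h1 h3 hp.out le_rfl (he1 P hP) (by rw [pow_one]; exact hnp)
      ((pow_dvd_iff_count P _ h1 h3 hp0 _).2 le_rfl)
      (fun h => by
        have := (pow_dvd_iff_count P _ h1 h3 hp0 _).1 h
        simp only [hep] at this
        omega)
    rw [mul_one, pow_dvd_iff_count P _ h1 h3 hd0, not_le] at h4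
    have h5 : v P + 1 ≤ ep P := h4
    calc v P * f P + f P = (v P + 1) * f P := by ring
      _ ≤ ep P * f P := Nat.mul_le_mul_right _ h5
  · intro hn7
    rw [hD]
    have h6 : ∑ P ∈ S, v P * f P ≤ ∑ P ∈ S, 3 * (ep P * f P) := by
      apply Finset.sum_le_sum
      intro P hP
      obtain ⟨h1, h2, h3⟩ := hSp P hP
      have h4 := idem F P p (ep P) 3 h1 h3 hp.out (by norm_num) (he1 P hP) (by
          have : 2 ^ 3 ≤ p ^ 3 := Nat.pow_le_pow_left hp.out.two_le 3
          omega)
        ((pow_dvd_iff_count P _ h1 h3 hp0 _).2 le_rfl)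
        (fun h => by
          have := (pow_dvd_iff_count P _ h1 h3 hp0 _).1 h
          simp only [hep] at this
          omega)
      rw [pow_dvd_iff_count P _ h1 h3 hd0, not_le] at h4
      have h5 : v P ≤ 3 * ep P := by
        show (normalizedFactors (differentIdeal ℤ (𝓞 F))).count P ≤ 3 * ep P
        omega
      calc v P * f P ≤ (3 * ep P) * f P := Nat.mul_le_mul_right _ h5
        _ = _ := by ring
    rw [← Finset.mul_sum, ← hN] at h6
    omega

end Pool.Agent.H57.GF
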